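import Pool.Agent.H33.HC.TB

/-!
# Row DDS of hcz_modules: the symmetry of the diagonal double sum
-/

set_option autoImplicit false

open NumberField Complex Filter Topology MeasureTheory
open scoped ContDiff nonZeroDivisors

namespace Pool.Agent.H51.HC

open Pool.Agent.H28.RC Pool.Agent.H37.CV Pool.Agent.H33.HH Pool.Agent.H65.CRZ Pool.Agent.H33.HC

variable {K : Type} [Field K] [NumberField K]

theorem dds_fin (X : ℝ) : {I : NI K | nm I.1 < X}.Finite := by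
  have h1 : {I : Ideal (𝓞 K) | Ideal.absNorm I ≤ ⌈X⌉₊}.Finite :=
    Ideal.finite_setOfPred_absNorm_le ⌈X⌉₊
  refine Set.Finite.of_finite_image (f := Subtype.val) (h1.subset ?_)
    Subtype.val_injective.injOn
  rintro _ ⟨I, hI, rfl⟩
  have h2 : (Ideal.absNorm I.1 : ℝ) < X := hI
  have h3 : (Ideal.absNorm I.1 : ℝ) ≤ (⌈X⌉₊ : ℝ) := le_trans h2.le (Nat.le_ceil X)
  exact_mod_cast h3

theorem dds_sumZ (P X : ℝ) (S : Finset (NI K)) (hS : ∀ I : NI K, nm I.1 < X → I ∈ S)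
    (f : Ideal (𝓞 K) → ℂ) (hf : ∀ I : Ideal (𝓞 K), X ≤ nm I → f I = 0) :
    sumZ P f = ∑ I ∈ S, open scoped Classical in if Cp P I.1 then f I.1 else 0 := by
  classical
  unfold sumZ
  refine tsum_eq_sum fun I hI => ?_
  have h1 : X ≤ nm I.1 := by
    by_contra h
    exact hI (hS I (not_le.1 h))
  rw [hf I.1 h1, ite_self]

theorem pf_DDS (h1 : T_GSC) : T_DDS := by
  classical
  intro K _ _ _ P Z G a b α β u hZ hG ha hb hα hβ
  have hGα : ∀ v, 6 ≤ v → Gs G (se α u) v = 0 := ((h1 G hG).1 _ hα).2.2.1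
  have hGβ : ∀ v, 6 ≤ v → Gs G (se β (-u)) v = 0 := ((h1 G hG).1 _ hβ).2.2.1
  have hdiv : ∀ I : Ideal (𝓞 K), 6 * Z ≤ nm I → 6 ≤ nm I / Z := by
    intro I hI
    rwa [le_div_iff₀ hZ]
  set S : Finset (NI K) := (dds_fin (K := K) (6 * Z)).toFinset with hSdef
  have hS : ∀ I : NI K, nm I.1 < 6 * Z → I ∈ S := by
    intro I hI
    rw [hSdef, Set.Finite.mem_toFinset]
    exact hI
  have key : ∀ (x y : Ideal (𝓞 K)) (w s t : ℂ), (∀ v, 6 ≤ v → Gs G s v = 0) →
      (∀ v, 6 ≤ v → Gs G t v = 0) →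
      (sumZ P fun m => sumZ P fun n =>
        if x * m = y * n then ((nm n : ℝ) : ℂ) ^ w *
          (Gs G s (nm m / Z) * Gs G t (nm n / Z)) else 0) =
      ∑ m ∈ S, ∑ n ∈ S, if Cp P m.1 ∧ Cp P n.1 ∧ x * m.1 = y * n.1 then
        ((nm n.1 : ℝ) : ℂ) ^ w * (Gs G s (nm m.1 / Z) * Gs G t (nm n.1 / Z)) else 0 := by
    intro x y w s t hs ht
    have e1 : ∀ m : Ideal (𝓞 K), (sumZ P fun n =>
        if x * m = y * n then ((nm n : ℝ) : ℂ) ^ w *
          (Gs G s (nm m / Z) * Gs G t (nm n / Z)) else 0) =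
        ∑ n ∈ S, if Cp P n.1 then (if x * m = y * n.1 then ((nm n.1 : ℝ) : ℂ) ^ w *
          (Gs G s (nm m / Z) * Gs G t (nm n.1 / Z)) else 0) else 0 := by
      intro m
      refine dds_sumZ P (6 * Z) S hS _ fun I hI => ?_
      rw [ht _ (hdiv I hI), mul_zero, mul_zero, ite_self]
    have e2 : (fun m : Ideal (𝓞 K) => sumZ P fun n =>
        if x * m = y * n then ((nm n : ℝ) : ℂ) ^ w *
          (Gs G s (nm m / Z) * Gs G t (nm n / Z)) else 0) =
        fun m => ∑ n ∈ S, if Cp P n.1 then (if x * m = y * n.1 then ((nm n.1 : ℝ) : ℂ) ^ w *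
          (Gs G s (nm m / Z) * Gs G t (nm n.1 / Z)) else 0) else 0 := funext e1
    rw [e2]
    rw [dds_sumZ P (6 * Z) S hS _ fun I hI => ?_]
    · refine Finset.sum_congr rfl fun m _ => ?_
      by_cases hm : Cp P m.1
      · rw [if_pos hm]
        refine Finset.sum_congr rfl fun n _ => ?_
        by_cases hn : Cp P n.1
        · rw [if_pos hn]
          by_cases hmn : x * m.1 = y * n.1
          · rw [if_pos hmn, if_pos ⟨hm, hn, hmn⟩]
          · rw [if_neg hmn, if_neg fun h => hmn h.2.2]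
        · rw [if_neg hn, if_neg fun h => hn h.2.1]
      · rw [if_neg hm]
        symm
        refine Finset.sum_eq_zero fun n _ => ?_
        rw [if_neg fun h => hm h.1]
    · refine Finset.sum_eq_zero fun n _ => ?_
      rw [hs _ (hdiv I hI), zero_mul, mul_zero, ite_self, ite_self]
  have hpos : ∀ I : Ideal (𝓞 K), I ≠ ⊥ → 0 < nm I := by
    intro I hI
    have h2 : Ideal.absNorm I ≠ 0 := by
      rw [Ne, Ideal.absNorm_eq_zero_iff]
      exact hI
    have h3 : 0 < Ideal.absNorm I := Nat.pos_of_ne_zero h2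
    unfold nm
    exact_mod_cast h3
  have hna := hpos a ha
  have hnb := hpos b hb
  have hna' : ((nm a : ℝ) : ℂ) ≠ 0 := by exact_mod_cast hna.ne'
  have hnb' : ((nm b : ℝ) : ℂ) ≠ 0 := by exact_mod_cast hnb.ne'
  unfold Dd2
  rw [neg_neg]
  rw [key b a (-1 - (β + α)) _ _ hGβ hGα, key a b (-1 - (α + β)) _ _ hGα hGβ,
    Finset.sum_comm, Finset.mul_sum, Finset.mul_sum]
  refine Finset.sum_congr rfl fun m _ => ?_
  rw [Finset.mul_sum, Finset.mul_sum]
  refine Finset.sum_congr rfl fun n _ => ?_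
  by_cases hc : Cp P m.1 ∧ Cp P n.1 ∧ a * m.1 = b * n.1
  · rw [if_pos hc, if_pos ⟨hc.2.1, hc.1, hc.2.2.symm⟩]
    have hm := hpos m.1 m.2
    have hn := hpos n.1 n.2
    have hm' : ((nm m.1 : ℝ) : ℂ) ≠ 0 := by exact_mod_cast hm.ne'
    have hn' : ((nm n.1 : ℝ) : ℂ) ≠ 0 := by exact_mod_cast hn.ne'
    have hmul : nm a * nm m.1 = nm b * nm n.1 := by
      have h2 := congrArg Ideal.absNorm hc.2.2
      rw [map_mul, map_mul] at h2
      unfold nm
      exact_mod_cast h2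
    have hpw : ∀ w : ℂ, ((nm a : ℝ) : ℂ) ^ w * ((nm m.1 : ℝ) : ℂ) ^ w =
        ((nm b : ℝ) : ℂ) ^ w * ((nm n.1 : ℝ) : ℂ) ^ w := by
      intro w
      rw [← Complex.mul_cpow_ofReal_nonneg hna.le hm.le,
        ← Complex.mul_cpow_ofReal_nonneg hnb.le hn.le, ← Complex.ofReal_mul,
        ← Complex.ofReal_mul, hmul]
    have e1 := hpw (-1 - (α + β))
    have e2 : ((nm a : ℝ) : ℂ) ^ (-1 - β) =
        ((nm a : ℝ) : ℂ) ^ α * ((nm a : ℝ) : ℂ) ^ (-1 - (α + β)) := by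
      rw [← Complex.cpow_add _ _ hna']
      congr 1
      ring
    have e3 : ((nm b : ℝ) : ℂ) ^ (-1 - α) =
        ((nm b : ℝ) : ℂ) ^ β * ((nm b : ℝ) : ℂ) ^ (-1 - (α + β)) := by
      rw [← Complex.cpow_add _ _ hnb']
      congr 1
      ring
    have e4 : (-1 - (β + α)) = (-1 - (α + β)) := by ring
    rw [e4, e2, e3]
    linear_combination (((nm b : ℝ) : ℂ) ^ β * ((nm a : ℝ) : ℂ) ^ α *
      (Gs G (se β (-u)) (nm n.1 / Z) * Gs G (se α u) (nm m.1 / Z))) * e1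
  · rw [if_neg hc, if_neg fun h => hc ⟨h.2.1, h.1, h.2.2.symm⟩, mul_zero, mul_zero]

end Pool.Agent.H51.HC
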